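import Mathlib

set_option autoImplicit false

namespace Pool.Agent.Results.MP_2ae949_nt.Omega

open Finset Filter Topology

theorem diff_le (s : ℝ) (hs : 0 < s) (n : ℕ) (hn : 1 ≤ n) :
    |(n : ℝ) ^ (-s) - ((n : ℝ) + 1) ^ (-s)| ≤ s / n := by
  have h0 : (0 : ℝ) < n := by exact_mod_cast hn
  have h1 : (1 : ℝ) ≤ n := by exact_mod_cast hn
  have e : ((n : ℝ) + 1) ^ (-s) = (n : ℝ) ^ (-s) * Real.exp (-(s * Real.log (1 + 1 / n))) := by
    have : (n : ℝ) + 1 = n * (1 + 1 / n) := by field_simp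
    rw [this, Real.mul_rpow h0.le (by positivity), Real.rpow_def_of_pos (x := 1 + 1 / n)
      (by positivity)]
    congr 2; ring
  have a1 : (n : ℝ) ^ (-s) ≤ 1 := Real.rpow_le_one_of_one_le_of_nonpos h1 (by linarith)
  have a2 : 0 < (n : ℝ) ^ (-s) := by positivity
  have a3 : Real.log (1 + 1 / n) ≤ 1 / n := by
    have := Real.log_le_sub_one_of_pos (x := 1 + 1 / (n : ℝ)) (by positivity)
    linarith
  have a4 : 0 ≤ Real.log (1 + 1 / n) := Real.log_nonneg (by simp)
  have a5 := Real.add_one_le_exp (-(s * Real.log (1 + 1 / n)))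
  have a6 : Real.exp (-(s * Real.log (1 + 1 / n))) ≤ 1 :=
    Real.exp_le_one_iff.2 (by have := mul_nonneg hs.le a4; linarith)
  have a7 : s * Real.log (1 + 1 / n) ≤ s / n := by
    have := mul_le_mul_of_nonneg_left a3 hs.le
    rwa [mul_one_div] at this
  rw [e, abs_of_nonneg (by nlinarith)]
  nlinarith

theorem upper (f : ℕ → ℂ) (hf0 : f 0 = 0) (C : ℝ)
    (hC : ∀ n : ℕ, ((n : ℝ) + 1) * ‖∑ k ∈ range (n + 1), f k‖ ≤ C) (s : ℝ) (hs : 0 < s)
    (hsum : Summable fun n : ℕ => f n * (((n : ℝ) ^ (-s) : ℝ) : ℂ)) :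
    ‖∑' n : ℕ, f n * (((n : ℝ) ^ (-s) : ℝ) : ℂ)‖ ≤ C * s := by
  have hC0 : 0 ≤ C := le_trans (by positivity) (hC 0)
  have key : ∀ N : ℕ, ‖∑ n ∈ range (N + 1), f n * (((n : ℝ) ^ (-s) : ℝ) : ℂ) -
      (∑ k ∈ range (N + 1), f k) * ((((N : ℝ) + 1) ^ (-s) : ℝ) : ℂ)‖ ≤
      C * s * (1 - 1 / ((N : ℝ) + 1)) := by
    intro N
    induction N with
    | zero => simp [hf0]
    | succ N ih =>
      have e : ∑ n ∈ range (N + 1 + 1), f n * (((n : ℝ) ^ (-s) : ℝ) : ℂ) -
          (∑ k ∈ range (N + 1 + 1), f k) * (((((N + 1 : ℕ) : ℝ) + 1) ^ (-s) : ℝ) : ℂ) =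
          (∑ n ∈ range (N + 1), f n * (((n : ℝ) ^ (-s) : ℝ) : ℂ) -
          (∑ k ∈ range (N + 1), f k) * ((((N : ℝ) + 1) ^ (-s) : ℝ) : ℂ)) +
          (∑ k ∈ range (N + 1 + 1), f k) *
            (((((N + 1 : ℕ) : ℝ)) ^ (-s) - (((N + 1 : ℕ) : ℝ) + 1) ^ (-s) : ℝ) : ℂ) := by
        rw [sum_range_succ _ (N + 1), sum_range_succ f (N + 1), Complex.ofReal_sub, Nat.cast_succ]
        ring
      rw [e]
      refine (norm_add_le _ _).trans ?_
      rw [norm_mul, Complex.norm_real, Real.norm_eq_abs]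
      have h1 := diff_le s hs (N + 1) (by omega)
      have h2 := hC (N + 1)
      push_cast at h1 h2 ⊢
      have h3 : ‖∑ k ∈ range (N + 1 + 1), f k‖ ≤ C / ((N : ℝ) + 1 + 1) := by
        rw [le_div_iff₀ (by positivity)]; linarith
      have h4 := mul_le_mul h3 h1 (abs_nonneg _) (by positivity)
      have h5 : C / ((N : ℝ) + 1 + 1) * (s / (N + 1)) =
        C * s * (1 - 1 / ((N : ℝ) + 1 + 1)) - C * s * (1 - 1 / ((N : ℝ) + 1)) := by
        field_simp; ring
      linarith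
  have t1 := hsum.hasSum.tendsto_sum_nat.comp (tendsto_add_atTop_nat 1)
  have t2 : Tendsto (fun N : ℕ => (∑ k ∈ range (N + 1), f k) * ((((N : ℝ) + 1) ^ (-s) : ℝ) : ℂ))
      atTop (𝓝 0) := by
    refine squeeze_zero_norm (a := fun N : ℕ => C * (1 / ((N : ℝ) + 1))) (fun N => ?_) ?_
    · rw [norm_mul, Complex.norm_real, Real.norm_of_nonneg (by positivity)]
      have a1 : ((N : ℝ) + 1) ^ (-s) ≤ 1 :=
        Real.rpow_le_one_of_one_le_of_nonpos (by simp) (by linarith)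
      have h3 : ‖∑ k ∈ range (N + 1), f k‖ ≤ C * (1 / ((N : ℝ) + 1)) := by
        rw [mul_one_div, le_div_iff₀ (by positivity)]; linarith [hC N]
      exact (mul_le_of_le_one_right (norm_nonneg _) a1).trans h3
    · simpa using tendsto_one_div_add_atTop_nhds_zero_nat.const_mul C
  have t3 := (t1.sub t2).norm
  rw [sub_zero] at t3
  refine le_of_tendsto' t3 fun N => (key N).trans ?_
  have : 0 ≤ C * s * (1 / ((N : ℝ) + 1)) := by positivity
  linarith

theorem pw (p e : ℕ) (t : ℝ) : (((p ^ e : ℕ) : ℝ)) ^ t = ((p : ℝ) ^ t) ^ e := by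
  rw [Nat.cast_pow, ← Real.rpow_natCast, ← Real.rpow_natCast, ← Real.rpow_mul (by positivity),
    ← Real.rpow_mul (by positivity), mul_comm]

theorem factor (f : ℕ → ℂ) (hf1 : f 1 = 1) (p : ℕ) (hp : 2 ≤ p) (s : ℝ) (hs : 0 < s)
    (h : ∀ n : ℕ, p ≤ n → (n : ℝ) * ‖f n‖ ≤ 1 / 4)
    (hsum : Summable fun e : ℕ => f (p ^ e) * (((((p ^ e : ℕ) : ℝ)) ^ (-s) : ℝ) : ℂ)) :
    1 ≤ ‖∑' e : ℕ, f (p ^ e) * (((((p ^ e : ℕ) : ℝ)) ^ (-s) : ℝ) : ℂ)‖ ^ 2 *
      (1 - 1 / (p : ℝ) ^ (1 + s))⁻¹ := by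
  have hp0 : (2 : ℝ) ≤ p := by exact_mod_cast hp
  set u : ℝ := 1 / (p : ℝ) ^ (1 + s) with hu
  have hu0 : 0 < u := by positivity
  have hu1 : u ≤ 1 / 2 := by
    refine one_div_le_one_div_of_le (by norm_num) ?_
    have := Real.rpow_le_rpow_of_exponent_le (x := p) (by linarith) (show (1 : ℝ) ≤ 1 + s by linarith)
    rw [Real.rpow_one] at this; linarith
  have hue : u = (p : ℝ) ^ (-s) / p := by
    rw [hu, Real.rpow_add (by linarith), Real.rpow_one, Real.rpow_neg (by linarith)]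
    field_simp
  rw [hsum.tsum_eq_zero_add]
  simp only [pow_zero, hf1, Nat.cast_one, Real.one_rpow, Complex.ofReal_one, mul_one]
  have hg : HasSum (fun e : ℕ => u / 4 * u ^ e) (u / 4 * (1 - u)⁻¹) :=
    (hasSum_geometric_of_lt_one hu0.le (by linarith)).mul_left _
  have hb := tsum_of_norm_bounded hg
    (f := fun e : ℕ => f (p ^ (e + 1)) * (((((p ^ (e + 1) : ℕ) : ℝ)) ^ (-s) : ℝ) : ℂ)) fun e => by
      rw [norm_mul, Complex.norm_real, Real.norm_of_nonneg (by positivity), pw]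
      have h1 := h (p ^ (e + 1)) (Nat.le_self_pow (by omega) p)
      have h2 : ‖f (p ^ (e + 1))‖ ≤ 1 / 4 / (p : ℝ) ^ (e + 1) := by
        rw [le_div_iff₀ (by positivity)]; push_cast at h1; linarith
      refine (mul_le_mul_of_nonneg_right h2 (by positivity)).trans (le_of_eq ?_)
      rw [hue, div_pow]
      field_simp
      ring
  generalize ∑' e : ℕ, f (p ^ (e + 1)) * (((((p ^ (e + 1) : ℕ) : ℝ)) ^ (-s) : ℝ) : ℂ) = T at hb
  have h1 : (1 - u)⁻¹ ≤ 2 := by
    rw [inv_le_comm₀ (by linarith) (by norm_num)]; linarith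
  have h2 : ‖T‖ ≤ u / 2 := by nlinarith
  have h3 : 1 - u / 2 ≤ ‖1 + T‖ := by
    have := norm_sub_le (1 + T) T
    rw [add_sub_cancel_right, norm_one] at this
    linarith
  rw [← div_eq_mul_inv, le_div_iff₀ (by linarith)]
  nlinarith

theorem main (f : ArithmeticFunction ℂ) (hf : f.IsMultiplicative)
    (hp : ∀ p : ℕ, p.Prime → ∃ c : ℂ, c ≠ 0 ∧
      Tendsto (fun K : ℕ => ∑ k ∈ range K, f (p ^ k)) atTop (𝓝 c))
    (H : Tendsto (fun N : ℕ => (N : ℝ) * ‖∑ n ∈ range (N + 1), f n‖) atTop (𝓝 0)) : False := by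
  have H1 : Tendsto (fun N : ℕ => ((N : ℝ) + 1) * ‖∑ n ∈ range (N + 1), f n‖) atTop (𝓝 0) := by
    have h2 := H.const_mul 2
    rw [mul_zero] at h2
    refine squeeze_zero' (Eventually.of_forall fun N => by positivity) ?_ h2
    filter_upwards [eventually_ge_atTop 1] with N hN
    have : (1 : ℝ) ≤ N := by exact_mod_cast hN
    nlinarith [norm_nonneg (∑ n ∈ range (N + 1), f n)]
  obtain ⟨C, hC⟩ := H1.bddAbove_range
  have hC' : ∀ n : ℕ, ((n : ℝ) + 1) * ‖∑ k ∈ range (n + 1), f k‖ ≤ C := fun n => hC ⟨n, rfl⟩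
  have hstep : ∀ n : ℕ, ((n + 1 : ℕ) : ℝ) * ‖f (n + 1)‖ ≤
      (((n + 1 : ℕ) : ℝ) + 1) * ‖∑ k ∈ range (n + 1 + 1), f k‖ +
      ((n : ℝ) + 1) * ‖∑ k ∈ range (n + 1), f k‖ := by
    intro n
    have h1 := norm_sub_le (∑ k ∈ range (n + 1 + 1), f k) (∑ k ∈ range (n + 1), f k)
    rw [sum_range_succ _ (n + 1), add_sub_cancel_left, ← sum_range_succ] at h1
    push_cast
    have h2 : (0 : ℝ) ≤ n + 1 := by positivity
    nlinarith [norm_nonneg (∑ k ∈ range (n + 1 + 1), f k), mul_le_mul_of_nonneg_left h1 h2]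
  have hB : ∀ n : ℕ, (n : ℝ) * ‖f n‖ ≤ 2 * C := by
    intro n
    cases n with
    | zero => have := hC' 0; simp at this ⊢; exact this
    | succ n => linarith [hstep n, hC' n, hC' (n + 1)]
  have H2 : Tendsto (fun n : ℕ => (n : ℝ) * ‖f n‖) atTop (𝓝 0) := by
    rw [← tendsto_add_atTop_iff_nat 1]
    have := (H1.comp (tendsto_add_atTop_nat 1)).add H1
    rw [add_zero] at this
    exact squeeze_zero (fun n => by positivity) hstep this
  obtain ⟨P, hP⟩ := eventually_atTop.1 (H2.eventually_le_const (show (0 : ℝ) < 1 / 4 by norm_num))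
  have hsum : ∀ s : ℝ, 0 < s → Summable fun n : ℕ => ‖f n * (((n : ℝ) ^ (-s) : ℝ) : ℂ)‖ := by
    intro s hs
    refine Summable.of_nonneg_of_le (fun _ => norm_nonneg _) (fun n => ?_)
      ((Real.summable_one_div_nat_rpow.2 (show 1 < 1 + s by linarith)).mul_left (2 * C))
    rcases Nat.eq_zero_or_pos n with rfl | hn
    · simp [(show (1 + s) ≠ 0 by linarith)]
    have h0 : (0 : ℝ) < n := by exact_mod_cast hn
    rw [norm_mul, Complex.norm_real, Real.norm_of_nonneg (by positivity), Real.rpow_add h0,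
      Real.rpow_one, Real.rpow_neg h0.le]
    have h2 : ‖f n‖ ≤ 2 * C / n := by rw [le_div_iff₀ h0]; linarith [hB n]
    refine (mul_le_mul_of_nonneg_right h2 (by positivity)).trans (le_of_eq ?_)
    field_simp
  let F : ℕ → ℝ → ℂ := fun p s => ∑' e : ℕ, f (p ^ e) * (((((p ^ e : ℕ) : ℝ)) ^ (-s) : ℝ) : ℂ)
  have hlow : ∀ s : ℝ, 0 < s → ∏ p ∈ P.primesBelow, ‖F p s‖ ^ 2 ≤
      (C * s) ^ 2 * ∑' n : ℕ, 1 / (n : ℝ) ^ (1 + s) := by
    intro s hs
    have e1 := EulerProduct.eulerProduct (f := fun n : ℕ => f n * (((n : ℝ) ^ (-s) : ℝ) : ℂ))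
      (by simp [hf.1]) (fun {m n} h => by
        rw [hf.2 h, Nat.cast_mul, Real.mul_rpow (by positivity) (by positivity)]
        push_cast; ring) (hsum s hs) (by simp)
    let h : ℕ →*₀ ℝ :=
      { toFun := fun n => 1 / (n : ℝ) ^ (1 + s)
        map_zero' := by simp [(show (1 + s) ≠ 0 by linarith)]
        map_one' := by simp
        map_mul' := fun m n => by
          rw [Nat.cast_mul, Real.mul_rpow (by positivity) (by positivity), one_div_mul_one_div] }
    have hs1 : Summable fun n : ℕ => 1 / (n : ℝ) ^ (1 + s) :=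
      Real.summable_one_div_nat_rpow.2 (show 1 < 1 + s by linarith)
    have e2 := EulerProduct.eulerProduct_completely_multiplicative (f := h) hs1.norm
    have e3 := (e1.norm.pow 2).mul e2
    have e4 : ∏ p ∈ P.primesBelow, ‖F p s‖ ^ 2 ≤
        ‖∑' n : ℕ, f n * (((n : ℝ) ^ (-s) : ℝ) : ℂ)‖ ^ 2 * ∑' n, h n := by
      refine ge_of_tendsto e3 ?_
      filter_upwards [eventually_ge_atTop P] with N hN
      rw [norm_prod, ← prod_pow, ← prod_mul_distrib]
      have hinv : ∀ p : ℕ, p.Prime → 1 ≤ (1 - h p)⁻¹ := by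
        intro p hp
        have a1 : h p < 1 := by
          have := hs1.norm_lt_one (f := h.toMonoidHom) hp.one_lt
          exact lt_of_le_of_lt (le_abs_self _) this
        have a2 : 0 ≤ h p := by change 0 ≤ 1 / (p : ℝ) ^ (1 + s); positivity
        exact (one_le_inv₀ (by linarith)).2 (by linarith)
      refine le_trans (prod_le_prod (fun p _ => by positivity) fun p hp' =>
        le_mul_of_one_le_right (by positivity) (hinv p (Nat.prime_of_mem_primesBelow hp'))) ?_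
      refine prod_le_prod_of_subset_of_one_le ?_ ?_ ?_
      · intro p hp'
        rw [Nat.mem_primesBelow] at hp' ⊢
        exact ⟨by omega, hp'.2⟩
      · intro p hp'
        have := hinv p (Nat.prime_of_mem_primesBelow hp')
        positivity
      · intro p hp1 hp2
        rw [Nat.mem_primesBelow] at hp1 hp2
        have : P ≤ p := by by_contra hh; exact hp2 ⟨by omega, hp1.2⟩
        exact factor f hf.1 p hp1.2.two_le s hs (fun n hn => hP n (by omega))
          ((hsum s hs).of_norm.comp_injective (Nat.pow_right_injective hp1.2.two_le))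
    refine e4.trans (mul_le_mul_of_nonneg_right ?_ (tsum_nonneg fun n => ?_))
    · exact pow_le_pow_left₀ (norm_nonneg _) (upper f f.map_zero C hC' s hs (hsum s hs).of_norm) 2
    · change 0 ≤ 1 / (n : ℝ) ^ (1 + s); positivity
  have hlim : ∀ p : ℕ, p.Prime → Tendsto (F p) (𝓝[>] 0) (𝓝 (∑' e, f (p ^ e))) ∧
      ∑' e, f (p ^ e) ≠ 0 := by
    intro p hpp
    have hp2 : (2 : ℝ) ≤ p := by exact_mod_cast hpp.two_le
    have hs0 : Summable fun e : ℕ => ‖f (p ^ e)‖ := by
      refine Summable.of_nonneg_of_le (fun _ => norm_nonneg _) (fun e => ?_)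
        ((summable_geometric_of_lt_one (r := 1 / p) (by positivity)
          (by rw [div_lt_one (by linarith)]; linarith)).mul_left (2 * C))
      have := hB (p ^ e)
      rw [one_div_pow, mul_one_div, le_div_iff₀ (by positivity)]
      push_cast at this; linarith
    constructor
    · refine tendsto_tsum_of_dominated_convergence hs0 (fun e => ?_) ?_
      · have hc : ContinuousAt (fun s : ℝ => f (p ^ e) * (((((p ^ e : ℕ) : ℝ)) ^ (-s) : ℝ) : ℂ)) 0 := by
          refine continuousAt_const.mul (Complex.continuous_ofReal.continuousAt.comp ?_)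
          exact ContinuousAt.rpow continuousAt_const (by fun_prop)
            (Or.inl (by have := hpp.pos; positivity))
        have := hc.tendsto.mono_left (nhdsWithin_le_nhds (s := Set.Ioi 0))
        simpa using this
      · filter_upwards [self_mem_nhdsWithin] with s hs e
        rw [norm_mul, Complex.norm_real, Real.norm_of_nonneg (by positivity)]
        refine mul_le_of_le_one_right (norm_nonneg _) ?_
        refine Real.rpow_le_one_of_one_le_of_nonpos ?_ (by simpa using le_of_lt hs)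
        exact_mod_cast Nat.one_le_pow _ _ hpp.pos
    · obtain ⟨c, hc, ht⟩ := hp p hpp
      rwa [tendsto_nhds_unique hs0.of_norm.hasSum.tendsto_sum_nat ht]
  have t1 : Tendsto (fun s => ∏ p ∈ P.primesBelow, ‖F p s‖ ^ 2) (𝓝[>] 0)
      (𝓝 (∏ p ∈ P.primesBelow, ‖∑' e, f (p ^ e)‖ ^ 2)) :=
    tendsto_finsetProd _ fun p hp' => (hlim p (Nat.prime_of_mem_primesBelow hp')).1.norm.pow 2
  have t2 : Tendsto (fun s : ℝ => (C * s) ^ 2 * ∑' n : ℕ, 1 / (n : ℝ) ^ (1 + s)) (𝓝[>] 0)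
      (𝓝 0) := by
    have a1 : Tendsto (fun s : ℝ => 1 + s) (𝓝[>] 0) (𝓝[>] 1) := by
      refine tendsto_nhdsWithin_iff.2 ⟨?_, ?_⟩
      · have : ContinuousAt (fun s : ℝ => 1 + s) 0 := by fun_prop
        simpa using this.tendsto.mono_left (nhdsWithin_le_nhds (s := Set.Ioi 0))
      · filter_upwards [self_mem_nhdsWithin] with s hs
        simpa using hs
    have a2 := tendsto_sub_mul_tsum_nat_rpow.comp a1
    have a3 : Tendsto (fun s : ℝ => C ^ 2 * s) (𝓝[>] 0) (𝓝 0) := by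
      have : ContinuousAt (fun s : ℝ => C ^ 2 * s) 0 := by fun_prop
      simpa using this.tendsto.mono_left (nhdsWithin_le_nhds (s := Set.Ioi 0))
    have a4 := a3.mul a2
    rw [zero_mul] at a4
    refine a4.congr fun s => ?_
    simp only [Function.comp_apply]
    ring
  have := le_of_tendsto_of_tendsto t1 t2 (by
    filter_upwards [self_mem_nhdsWithin] with s hs using hlow s hs)
  refine absurd this (not_le.2 (prod_pos fun p hp' => ?_))
  have := (hlim p (Nat.prime_of_mem_primesBelow hp')).2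
  positivity

/-- Every MO function has partial sums `Ω(1 / x)`. -/
theorem result (f : ArithmeticFunction ℂ) (hf : f.IsMultiplicative)
    (_h0 : Tendsto (fun N : ℕ => ∑ n ∈ Icc 1 N, f n) atTop (𝓝 0))
    (hp : ∀ p : ℕ, p.Prime → ∃ c : ℂ, c ≠ 0 ∧
      Tendsto (fun K : ℕ => ∑ k ∈ range K, f (p ^ k)) atTop (𝓝 c)) :
    ∃ c : ℝ, 0 < c ∧ ∀ X : ℝ, ∃ x : ℝ, X ≤ x ∧ c ≤ x * ‖∑ n ∈ Icc 1 ⌊x⌋₊, f n‖ := by
  by_contra hcon
  push Not at hcon
  refine main f hf hp (Metric.tendsto_atTop.2 fun ε hε => ?_)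
  obtain ⟨X, hX⟩ := hcon ε hε
  refine ⟨⌈X⌉₊, fun n hn => ?_⟩
  have := hX n ((Nat.le_ceil X).trans (by exact_mod_cast hn))
  rw [Nat.floor_natCast] at this
  have e : ∑ k ∈ range (n + 1), f k = ∑ k ∈ Icc 1 n, f k := by
    rw [range_eq_Ico, sum_eq_sum_Ico_succ_bot (by omega), f.map_zero, zero_add]
    rfl
  rw [Real.dist_eq, sub_zero, abs_of_nonneg (by positivity), e]
  exact this

end Pool.Agent.Results.MP_2ae949_nt.Omega
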